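import Pool.Agent.ZTO.Stmts

/-!
# Row COF of squad ZTO: the coefficients exist (helper92)
-/

set_option autoImplicit false

namespace Pool.Agent.ZTO.H92

open Pool.Agent.ZTO

theorem cof : CofStmt := by
  intro G _ p ψ V _ F t ρ x hp hF
  obtain ⟨y, hy⟩ : ∃ y : ℕ → V, ∀ j, y j = (⇑t)^[j] x := ⟨_, fun _ => rfl⟩
  have hy0 : y 0 = x := by rw [hy]; rfl
  have hys : ∀ j, y (j + 1) = t (y j) := by
    intro j
    rw [hy, hy, Function.iterate_succ_apply']
  have hmem : ∀ j, y j ∈ F j := by
    intro j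
    induction j with
    | zero => rw [hF.top]; exact AddSubgroup.mem_top _
    | succ j ih => rw [hys]; exact (hF.tf j _).2 ih
  have hnot : ∀ j, y j ∉ F (j + 1) := by
    intro j
    induction j with
    | zero => rw [hy0]; exact hF.out
    | succ j ih => rw [hys]; exact fun h => ih ((hF.tf (j + 1) _).1 h)
  have hpm : ∀ j, p • y j ∈ F (j + 1) := by
    intro j
    induction j with
    | zero => exact hF.ord _
    | succ j ih => rw [hys, ← map_nsmul]; exact (hF.tf (j + 1) _).2 ih
  have hdvd : ∀ j (n : ℤ), n • y j ∈ F (j + 1) ↔ (p : ℤ) ∣ n := by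
    intro j n
    constructor
    · intro h
      by_contra hn
      have hcop : IsCoprime (p : ℤ) n :=
        (Prime.coprime_iff_not_dvd (Nat.prime_iff_prime_int.1 hp)).2 hn
      obtain ⟨a, b, hab⟩ := hcop
      apply hnot j
      have h1 : y j = a • (p • y j) + b • (n • y j) := by
        rw [← natCast_zsmul (y j) p, ← mul_zsmul', ← mul_zsmul', ← add_zsmul, mul_comm (p : ℤ) a,
          mul_comm n b, hab, one_zsmul]
      rw [h1]
      exact (F (j + 1)).add_mem ((F (j + 1)).zsmul_mem (hpm j) a) ((F (j + 1)).zsmul_mem h b)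
    · rintro ⟨k, rfl⟩
      rw [mul_zsmul', natCast_zsmul]
      exact (F (j + 1)).zsmul_mem (hpm j) k
  have hex : ∀ j (v : V), ∃ a : ZMod p, v ∈ F j → ∃ r : ℕ, v - r • y j ∈ F (j + 1) ∧
      a = (r : ZMod p) := by
    intro j v
    by_cases hv : v ∈ F j
    · obtain ⟨r, hr⟩ := hF.gen j v hv
      rw [← hy] at hr
      exact ⟨r, fun _ => ⟨r, hr, rfl⟩⟩
    · exact ⟨0, fun h => absurd h hv⟩
  choose c hc using hex
  have key : ∀ j, ∀ v ∈ F j, ∀ n : ℤ, v - n • y j ∈ F (j + 1) → c j v = (n : ZMod p) := by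
    intro j v hv n hn
    obtain ⟨r, hr, hcr⟩ := hc j v hv
    rw [hcr]
    have h1 : ((r : ℤ) - n) • y j ∈ F (j + 1) := by
      have h2 := (F (j + 1)).sub_mem hn hr
      have h3 : (v - n • y j) - (v - r • y j) = ((r : ℤ) - n) • y j := by
        rw [sub_zsmul, natCast_zsmul]
        abel
      rwa [h3] at h2
    have h2 := (hdvd j _).1 h1
    have h3 : (((r : ℤ) - n : ℤ) : ZMod p) = 0 := (ZMod.intCast_zmod_eq_zero_iff_dvd _ _).2 h2
    push_cast at h3
    exact sub_eq_zero.1 h3
  refine ⟨c, ⟨?_, ?_, ?_, ?_⟩⟩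
  · intro j v hv w hw
    obtain ⟨r, hr, hcr⟩ := hc j v hv
    obtain ⟨r', hr', hcr'⟩ := hc j w hw
    rw [hcr, hcr']
    have h1 := key j (v + w) ((F j).add_mem hv hw) ((r : ℤ) + r') (by
      have h2 := (F (j + 1)).add_mem hr hr'
      have h3 : (v - r • y j) + (w - r' • y j) = v + w - ((r : ℤ) + r') • y j := by
        rw [add_zsmul, natCast_zsmul, natCast_zsmul]
        abel
      rwa [h3] at h2)
    rw [h1]
    push_cast
    rfl
  · intro j v hv
    constructor
    · intro h
      obtain ⟨r, hr, hcr⟩ := hc j v hv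
      rw [h] at hcr
      have h1 : ((r : ℤ) : ZMod p) = 0 := by
        push_cast
        exact hcr.symm
      have h2 := (ZMod.intCast_zmod_eq_zero_iff_dvd _ _).1 h1
      have h3 := (hdvd j r).2 h2
      rw [natCast_zsmul] at h3
      have h4 := (F (j + 1)).add_mem hr h3
      rwa [sub_add_cancel] at h4
    · intro h
      have h1 := key j v hv 0 (by rw [zero_zsmul, sub_zero]; exact h)
      rw [h1, Int.cast_zero]
  · intro j
    rw [← hy]
    have h1 := key j (y j) (hmem j) 1 (by rw [one_zsmul, sub_self]; exact (F (j + 1)).zero_mem)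
    rw [h1, Int.cast_one]
  · intro j v hv
    obtain ⟨r, hr, hcr⟩ := hc j v hv
    rw [hcr]
    have h1 := key (j + 1) (t v) ((hF.tf j v).2 hv) (r : ℤ) (by
      have h2 := (hF.tf (j + 1) _).2 hr
      rw [map_sub, map_nsmul, ← hys] at h2
      rw [natCast_zsmul]
      exact h2)
    rw [h1]
    push_cast
    rfl

end Pool.Agent.ZTO.H92
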