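import Pool.Agent.ZTO.Stmts

/-! Row TFR of squad ZTO: the case `p • x ≠ 0`. -/

set_option autoImplicit false

namespace Pool.Agent.ZTO.H92

open scoped BigOperators

lemma ant {V : Type} [AddCommGroup V] {F : ℕ → AddSubgroup V} (h : ∀ j, F (j + 1) ≤ F j)
    {i j : ℕ} (hij : i ≤ j) {v : V} (hv : v ∈ F j) : v ∈ F i :=
  (antitone_nat_of_succ_le h) hij hv

lemma tit {V : Type} [AddCommGroup V] {F : ℕ → AddSubgroup V} {t : V →+ V}
    (h : ∀ j v, t v ∈ F (j + 1) ↔ v ∈ F j) (l : ℕ) : ∀ j v, (⇑t)^[l] v ∈ F (j + l) ↔ v ∈ F j := by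
  induction l with
  | zero => intro j v; rfl
  | succ l ih =>
    intro j v
    rw [Function.iterate_succ_apply', ← add_assoc, h, ih]

/-- (c) -/
lemma bez {V : Type} [AddCommGroup V] {A : AddSubgroup V} {p q : ℕ} (hp : p.Prime) (hq : ¬ p ∣ q)
    {v : V} (h1 : p • v ∈ A) (h2 : q • v ∈ A) : v ∈ A := by
  have hc : IsCoprime (p : ℤ) (q : ℤ) :=
    Nat.isCoprime_iff_coprime.2 ((Nat.Prime.coprime_iff_not_dvd hp).2 hq)
  obtain ⟨a, b, hab⟩ := hc
  have : v = a • (p • v) + b • (q • v) := by
    rw [← natCast_zsmul v p, ← natCast_zsmul v q, ← mul_zsmul', ← mul_zsmul', ← add_zsmul]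
    rw [show (p : ℤ) * a + (q : ℤ) * b = a * p + b * q by ring, hab, one_zsmul]
  rw [this]
  exact A.add_mem (A.zsmul_mem h1 a) (A.zsmul_mem h2 b)

/-- the binomial formula -/
lemma bin {V : Type} [AddCommGroup V] (D : AddMonoid.End V) (n : ℕ) (h : (D + 1) ^ (n + 2) = 1)
    (v : V) : (n + 2) • D v +
      ∑ i ∈ Finset.range (n + 1), (n + 2).choose (i + 2) • (D ^ (i + 1)) (D v) = 0 := by
  have h1 := (Commute.one_right D).add_pow (n + 2)
  rw [h] at h1
  have h2 := DFunLike.congr_fun h1 v
  have h3 : (∑ m ∈ Finset.range (n + 2 + 1),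
      D ^ m * 1 ^ (n + 2 - m) * ((n + 2).choose m : AddMonoid.End V)) v =
      ∑ m ∈ Finset.range (n + 2 + 1), (n + 2).choose m • (D ^ m) v := by
    have hs : ∀ (s : Finset ℕ) (f : ℕ → AddMonoid.End V),
        (∑ m ∈ s, f m) v = ∑ m ∈ s, f m v := by
      intro s f
      induction s using Finset.induction_on with
      | empty => rfl
      | insert a s ha ih =>
        rw [Finset.sum_insert ha, Finset.sum_insert ha, ← ih]
        rfl
    rw [hs]
    refine Finset.sum_congr rfl fun m _ => ?_
    rw [one_pow, mul_one]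
    show (D ^ m) (((n + 2).choose m : AddMonoid.End V) v) = _
    rw [AddMonoid.End.natCast_apply, map_nsmul]
  rw [h3, Finset.sum_range_succ', Finset.sum_range_succ'] at h2
  have h4 : (1 : AddMonoid.End V) v = v := rfl
  have h5 : ∀ m, (D ^ (m + 1)) v = (D ^ m) (D v) := by
    intro m
    rw [pow_succ]
    rfl
  rw [h4] at h2
  simp only [h5, zero_add, pow_zero, Nat.choose_zero_right, one_smul, h4, Nat.choose_one_right] at h2
  have h6 : (1 : AddMonoid.End V) (D v) = D v := rfl
  rw [h6] at h2
  have h7 := left_eq_add.mp (h2.trans (add_comm _ _))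
  rw [add_comm] at h7
  exact h7

theorem tfr (hKAC : KacStmt) (hKER : KerStmt) : TfrStmt := by
  intro G _ _ p ψ V _ F t ρ x hp hfo hF hpx
  have an := @ant V _ F hF.anti
  have ti := fun l => tit (F := F) (t := t) hF.tf l
  -- the number c
  obtain ⟨c, hc1, hcm, hcn⟩ : ∃ c, 1 ≤ c ∧ p • x ∈ F c ∧ p • x ∉ F (c + 1) := by
    classical
    have hex : ∃ j, p • x ∉ F j := by
      by_contra hne
      push Not at hne
      exact hpx (hF.sep _ hne)
    have h1 : Nat.find hex ≠ 0 := by
      intro h0
      have := Nat.find_spec hex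
      rw [h0, hF.top] at this
      exact this trivial
    have h2 : Nat.find hex ≠ 1 := by
      intro h0
      have := Nat.find_spec hex
      rw [h0] at this
      exact this (hF.ord x)
    refine ⟨Nat.find hex - 1, by omega, ?_, ?_⟩
    · by_contra hne
      have := Nat.find_min' hex hne
      omega
    · have h3 : Nat.find hex - 1 + 1 = Nat.find hex := by omega
      rw [h3]
      exact Nat.find_spec hex
  have hsm : ∀ l, p • (⇑t)^[l] x = (⇑t)^[l] (p • x) := by
    intro l
    induction l with
    | zero => rfl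
    | succ l ih =>
      rw [Function.iterate_succ_apply', Function.iterate_succ_apply', ← ih, map_nsmul]
  -- (a)
  have ha : ∀ i, ∀ v ∈ F i, p • v ∈ F (i + c) := by
    intro i v hv
    have key : ∀ n, ∃ v', v' ∈ F (i + n) ∧ p • v - p • v' ∈ F (i + c) := by
      intro n
      induction n with
      | zero => exact ⟨v, hv, by rw [sub_self]; exact AddSubgroup.zero_mem _⟩
      | succ n ih =>
        obtain ⟨v', hv', hd⟩ := ih
        obtain ⟨r, hr⟩ := hF.gen (i + n) v' hv'
        refine ⟨v' - r • (⇑t)^[i + n] x, hr, ?_⟩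
        have h1 : p • v - p • (v' - r • (⇑t)^[i + n] x) =
            (p • v - p • v') + r • (p • (⇑t)^[i + n] x) := by
          rw [smul_sub, smul_comm r p]
          abel
        rw [h1]
        refine AddSubgroup.add_mem _ hd (AddSubgroup.nsmul_mem _ ?_ r)
        rw [hsm]
        have h2 := (ti (i + n) c (p • x)).2 hcm
        exact an (by omega) h2
    obtain ⟨v', hv', hd⟩ := key c
    have : p • v = (p • v - p • v') + p • v' := by abel
    rw [this]
    exact AddSubgroup.add_mem _ hd (AddSubgroup.nsmul_mem _ hv' p)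
  have ha1 : ∀ i, ∀ v ∈ F i, p • v ∈ F (i + 1) := fun i v hv => an (by omega) (ha i v hv)
  -- (b)
  have hb : ∀ i, ∀ v ∈ F i, p • v ∈ F (i + c + 1) → v ∈ F (i + 1) := by
    intro i v hv hpv
    obtain ⟨r, hr⟩ := hF.gen i v hv
    have htx : (⇑t)^[i] x ∈ F i := by
      have := (ti i 0 x).2 (by rw [hF.top]; trivial)
      rwa [zero_add] at this
    have hvr : v = (v - r • (⇑t)^[i] x) + r • (⇑t)^[i] x := by abel
    by_cases hpr : p ∣ r
    · obtain ⟨s, rfl⟩ := hpr
      rw [hvr]
      refine AddSubgroup.add_mem _ hr ?_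
      rw [mul_comm, mul_nsmul']
      exact AddSubgroup.nsmul_mem _ (ha1 i _ htx) s
    · exfalso
      apply hcn
      have h1 : p • (v - r • (⇑t)^[i] x) ∈ F (i + c + 1) := an (by omega) (ha (i + 1) _ hr)
      have h2 : r • (⇑t)^[i] (p • x) ∈ F (i + c + 1) := by
        have : r • (⇑t)^[i] (p • x) = p • v - p • (v - r • (⇑t)^[i] x) := by
          rw [← hsm, smul_sub, smul_comm r p]
          abel
        rw [this]
        exact AddSubgroup.sub_mem _ hpv h1
      have h3 : (⇑t)^[i] (p • x) ∈ F (i + c) := by
        have := (ti i c (p • x)).2 hcm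
        rwa [add_comm c i] at this
      have h4 := bez hp hpr (ha1 _ _ h3) h2
      rw [show i + c + 1 = (c + 1) + i by omega] at h4
      exact (ti i (c + 1) (p • x)).1 h4
  have hKG := hKER G (p ^ (c + 1))
  refine ⟨Ker G (p ^ (c + 1)), hKG.2.1, ?_⟩
  have hD := hKAC G p ψ V F t ρ x hp hF (c + 1)
  -- the prime step
  have step : ∀ g ∈ Ker G (p ^ (c + 1)), ∀ q : ℕ, q.Prime → ρ (g ^ q) = 1 → ρ g = 1 := by
    intro g hg q hq hgq
    obtain ⟨D, hDd⟩ : ∃ D : AddMonoid.End V, D = ρ g - 1 := ⟨_, rfl⟩
    have hDv : ∀ v, D v = ρ g v - v := by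
      intro v
      rw [hDd]
      rfl
    have hDF : ∀ j, ∀ v ∈ F j, D v ∈ F (j + (c + 1)) := by
      intro j v hv
      rw [hDv]
      exact hD g hg j v hv
    have hDi : ∀ i j, ∀ v ∈ F j, (D ^ i) v ∈ F (j + i * (c + 1)) := by
      intro i
      induction i with
      | zero =>
        intro j v hv
        have : (D ^ 0) v = v := by
          rw [pow_zero]
          rfl
        rw [this, zero_mul, add_zero]
        exact hv
      | succ i ih =>
        intro j v hv
        have : (D ^ (i + 1)) v = D ((D ^ i) v) := by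
          rw [pow_succ']
          rfl
        rw [this, show j + (i + 1) * (c + 1) = j + i * (c + 1) + (c + 1) by ring]
        exact hDF _ _ (ih j v hv)
    have hgD : ρ g = D + 1 := by
      rw [hDd, sub_add_cancel]
    obtain ⟨n, rfl⟩ : ∃ n, q = n + 2 := ⟨q - 2, by have := hq.two_le; omega⟩
    rw [map_pow, hgD] at hgq
    -- D = 0
    have hD0 : ∀ v, D v = 0 := by
      intro v
      by_contra hw
      obtain ⟨w, hwd⟩ : ∃ w, w = D v := ⟨_, rfl⟩
      rw [← hwd] at hw
      obtain ⟨m, hm1, hm2⟩ : ∃ m, w ∈ F m ∧ w ∉ F (m + 1) := by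
        classical
        have hex : ∃ j, w ∉ F j := by
          by_contra hne
          push Not at hne
          exact hw (hF.sep _ hne)
        have h1 : Nat.find hex ≠ 0 := by
          intro h0
          have := Nat.find_spec hex
          rw [h0, hF.top] at this
          exact this trivial
        refine ⟨Nat.find hex - 1, ?_, ?_⟩
        · by_contra hne
          have := Nat.find_min' hex hne
          omega
        · have h3 : Nat.find hex - 1 + 1 = Nat.find hex := by omega
          rw [h3]
          exact Nat.find_spec hex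
      have hb2 := bin D n hgq v
      rw [← hwd] at hb2
      have hb3 : (n + 2) • w =
          -∑ i ∈ Finset.range (n + 1), (n + 2).choose (i + 2) • (D ^ (i + 1)) w :=
        eq_neg_of_add_eq_zero_left hb2
      by_cases hqp : n + 2 = p
      · -- the case `q = p`
        apply hm2
        apply hb m w hm1
        rw [← hqp, hb3]
        refine AddSubgroup.neg_mem _ (AddSubgroup.sum_mem _ fun i hi => ?_)
        rw [Finset.mem_range] at hi
        have hmem := hDi (i + 1) m w hm1
        by_cases hin : i = n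
        · refine AddSubgroup.nsmul_mem _ (an ?_ hmem) _
          have : (c + 1) * 1 ≤ (i + 1) * (c + 1) := by nlinarith
          omega
        · have hdv : n + 2 ∣ (n + 2).choose (i + 2) :=
            hq.dvd_choose_self (by omega) (by omega)
          obtain ⟨s, hs⟩ := hdv
          rw [hs, mul_comm, mul_nsmul', smul_comm, hqp]
          have h1 : s • (D ^ (i + 1)) w ∈ F (m + 1) := by
            refine AddSubgroup.nsmul_mem _ (an ?_ hmem) _
            have : 1 ≤ (i + 1) * (c + 1) := Nat.one_le_iff_ne_zero.2 (by positivity)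
            omega
          exact an (by omega) (ha (m + 1) _ h1)
      · apply hm2
        refine bez hp (q := n + 2) ?_ (ha1 m w hm1) ?_
        · intro hdv
          exact hqp ((Nat.prime_dvd_prime_iff_eq hp hq).1 hdv).symm
        · rw [hb3]
          refine AddSubgroup.neg_mem _ (AddSubgroup.sum_mem _ fun i hi => ?_)
          have hmem := hDi (i + 1) m w hm1
          refine AddSubgroup.nsmul_mem _ (an ?_ hmem) _
          have : 1 ≤ (i + 1) * (c + 1) := Nat.one_le_iff_ne_zero.2 (by positivity)
          omega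
    rw [hgD]
    have : D = 0 := by
      ext v
      exact hD0 v
    rw [this, zero_add]
  have main : ∀ n : ℕ, 0 < n → ∀ g ∈ Ker G (p ^ (c + 1)), g ^ n = 1 → ρ g = 1 := by
    intro n
    induction n using Nat.strong_induction_on with
    | _ n ih =>
      intro hn g hg hgn
      by_cases h1 : n = 1
      · rw [h1, pow_one] at hgn
        rw [hgn, map_one]
      · have hq := Nat.minFac_prime h1
        obtain ⟨m, hm⟩ := Nat.minFac_dvd n
        have hm0 : 0 < m := by
          rcases Nat.eq_zero_or_pos m with h0 | h0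
          · rw [h0, mul_zero] at hm
            omega
          · exact h0
        have hmn : m < n := by
          have := hq.two_le
          nlinarith
        apply step g hg n.minFac hq
        apply ih m hmn hm0 _ (Subgroup.pow_mem _ hg _)
        rw [← pow_mul, ← hm, hgn]
  intro g hg v
  obtain ⟨n, hn, hgn⟩ := isOfFinOrder_iff_pow_eq_one.1 (hfo g)
  rw [main n hn g hg hgn]
  rfl

end Pool.Agent.ZTO.H92
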